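import Pool.Agent.W920.HM.Fin

/-!
# The Aaronson-Ambainis inequality for hybrid programs with a quantum memory

A program (`Pool.Agent.W920.HM.MProg N T q r c M`) adaptively calls quantum subroutines; which one
is called next, and with which parameters, may depend arbitrarily on all outcomes seen so far.  A
quantum memory of dimension `M` is handed from call to call.  Each subroutine loads the memory,
applies `T` layers of `q` parallel phase queries interleaved with arbitrary unitaries on the whole
register (memory included), and ends with a measurement, with `c` recorded outcomes, of everything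
except the memory; every variable is active in at most `r` of the `T` layers of one call.
-/

set_option autoImplicit false

namespace Pool.Agent.Results.MP_cf5f8b_an.HybridMemory

open scoped ComplexOrder

theorem result :
    ∀ (N T q r c M L : ℕ), 1 ≤ T → 1 ≤ q → 1 ≤ r → 1 ≤ c → 1 ≤ L →
      ∀ (P : Pool.Agent.W920.HM.MProg N T q r c M), P.calls ≤ L →
      ∀ (ρ : Matrix (Fin M) (Fin M) ℂ), ρ.PosSemidef → ρ.trace = 1 →
      ∀ (p : (Fin N → Bool) → ℝ), (∀ x, p x = (P.prob x ρ).re) →
      ∀ Var : ℝ,
        Var = (∑ x : Fin N → Bool, p x ^ 2) / 2 ^ N - ((∑ x : Fin N → Bool, p x) / 2 ^ N) ^ 2 →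
        0 < Var →
        ∃ j : Fin N,
          (Var ^ 5 / (113246208 * (L : ℝ) ^ 5 * (c : ℝ) ^ 4 * (M : ℝ) ^ 8 * (r : ℝ) ^ 2
              * ((T : ℝ) * q) ^ 5
              * (320 * (r : ℝ) ^ 4 * (T : ℝ) ^ 2 * q) ^ (2 * r))) ^ 2
            ≤ (∑ x : Fin N → Bool,
                ((p x - p (Function.update x j (!x j))) / 2) ^ 2) / 2 ^ N := by
  intro N T q r c M L hT hq hr hc hL P hP ρ hρ hρ1 p hp Var hVar hVar0
  refine Pool.Agent.W920.HM.infl N T q r c M L hT hq hr hc hL P hP ρ hρ hρ1 p hp Var hVar0 ?_
  rw [hVar]
  exact (Pool.Agent.W920.HQ.var_eq _).symm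

end Pool.Agent.Results.MP_cf5f8b_an.HybridMemory
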